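import Pool.Agent.U913.HU.Ext

/-!
# The block of the format `A x = 0`, `Pf A = 0`
-/

set_option autoImplicit false
set_option linter.unusedSectionVars false

namespace Pool.Agent.U913.HU

open Finset MvPolynomial Pool.Agent.R837.FE Pool.Agent.N830.PS
open Pool.Agent.TH144.NV (act)

/-- the chart in which `x` vanishes -/
theorem ext_0 (k : Type) [Field k] [CharZero k] (h : ℕ)
    (R : Fin (2 * h + 2) → Fin (2 * h + 2) → Prop)
    (hR : ∀ a b, R a b → R b a) (hR3 : ∀ a b c d, R a b → R b c → R c d → R a d)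
    (B : Finset (Fin (2 * h + 2))) (hB : Adm false R B) (hBr : B.card ≤ 2 * h + 1)
    (live : Co (2 * h + 2) → Prop)
    (hl : ∀ x : K false (ok (2 * h + 2)), live (Sum.inl x) ↔ R x.1.1 x.1.2)
    (Pt : Finset (Co (2 * h + 2)))
    (hP1 : ∀ x : K false (ok (2 * h + 2)),
      Sum.inl x ∈ Pt ↔ R x.1.1 x.1.2 ∧ (x.1.1 ∈ B ∨ x.1.2 ∈ B))
    (hP2 : ∀ j, Sum.inr j ∉ Pt) :
    Pool.Agent.R837.FQ.Ext k (huEq k (2 * h + 2)) live Pt := by
  classical
  have h0 := ext_of (k := k) false (ok (2 * h + 2)) R (fun _ _ _ => trivial) hR hR3 B hB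
    (2 * h + 1) hBr (fun x => live (Sum.inl x)) hl
    (univ.filter fun x => R x.1.1 x.1.2 ∧ (x.1.1 ∈ B ∨ x.1.2 ∈ B)) (fun x => by simp)
  intro L _ _ u hu
  let f : {x : K false (ok (2 * h + 2)) // x ∈ univ.filter fun x : K false (ok (2 * h + 2)) =>
      R x.1.1 x.1.2 ∧ (x.1.1 ∈ B ∨ x.1.2 ∈ B)} → {x // x ∈ Pt} := fun x =>
    ⟨Sum.inl x.1, (hP1 _).2 (mem_filter.1 x.2).2⟩
  have hf : Function.Injective f := by
    intro x y hxy
    have h1 := congrArg (fun z : {x // x ∈ Pt} => z.1) hxy
    exact Subtype.ext (Sum.inl_injective h1)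
  obtain ⟨z', h1, h2, h3⟩ := h0 L (fun x => u (Sum.inl x)) (hu.comp f hf)
  refine ⟨Sum.elim z' (fun _ => 0), ?_, ?_, ?_⟩
  · rintro (x | j) hx
    · exact h1 x (mem_filter.2 ⟨mem_univ _, (hP1 x).1 hx⟩)
    · exact absurd hx (hP2 j)
  · rintro (x | j) hx
    · exact h2 x hx
    · rfl
  · intro j
    refine aeval_huEq _ (mat false (ok _) z') rfl ?_ ?_ j
    · intro i; simp
    · have h4 := h3 (fun i => i, fun i => i)
      have h5 : (aeval z' : MvPolynomial (K false (ok (2 * h + 2))) k →ₐ[k] L)
          (((mat false (ok (2 * h + 2))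
            fun x => (X x : MvPolynomial (K false (ok (2 * h + 2))) k)).submatrix
              (fun i : Fin (2 * h + 1 + 1) => i) (fun i : Fin (2 * h + 1 + 1) => i)).det) =
          (mat false (ok (2 * h + 2)) z').det := by
        rw [AlgHom.map_det]
        have h6 := mat_map false (ok (2 * h + 2))
          (fun κ => (X κ : MvPolynomial (K false (ok (2 * h + 2))) k))
          (aeval z' : MvPolynomial (K false (ok (2 * h + 2))) k →ₐ[k] L).toRingHom
        have h7 : (fun κ => (aeval z' : MvPolynomial (K false (ok (2 * h + 2))) k →ₐ[k] L).toRingHom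
            (X κ : MvPolynomial (K false (ok (2 * h + 2))) k)) = z' := by
          funext κ
          exact aeval_X _ _
        rw [h7] at h6
        rw [← h6]
        rfl
      rw [← h5]
      exact h4

section count
variable {m : ℕ} (R : Fin m → Fin m → Prop)

open Classical in
theorem card_K : Nat.card (K false R) =
    (univ.filter fun x : K false (ok m) => R x.1.1 x.1.2).card := by
  rw [Nat.card_eq_fintype_card, ← Finset.card_univ]
  refine Finset.card_bij (fun x _ => ⟨x.1, x.2.1, trivial⟩) ?_ ?_ ?_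
  · intro x _
    exact mem_filter.2 ⟨mem_univ _, x.2.2⟩
  · intro x _ y _ h
    have h9 := congrArg (fun z : K false (ok m) => z.1) h
    exact Subtype.ext h9
  · intro x hx
    exact ⟨⟨x.1, x.2.1, (mem_filter.1 hx).2⟩, mem_univ _, rfl⟩

open Classical in
theorem card_tch (B : Finset (Fin m)) : (tch false R B).card =
    (univ.filter fun x : K false (ok m) =>
      R x.1.1 x.1.2 ∧ (x.1.1 ∈ B ∨ x.1.2 ∈ B)).card := by
  refine Finset.card_bij (fun x _ => ⟨x.1, x.2.1, trivial⟩) ?_ ?_ ?_
  · intro x hx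
    exact mem_filter.2 ⟨mem_univ _, x.2.2, (mem_tch (sym := false) (R := R)).1 hx⟩
  · intro x _ y _ h
    have h9 := congrArg (fun z : K false (ok m) => z.1) h
    exact Subtype.ext h9
  · intro x hx
    have h1 := (mem_filter.1 hx).2
    exact ⟨⟨x.1, x.2.1, h1.1⟩, mem_tch.2 h1.2, rfl⟩

open Classical in
/-- a perfect matching has `m / 2` edges -/
theorem card_adm {h : ℕ} (hm : m = 2 * h + 2) (hA : Adm false R univ) :
    h + 1 ≤ (univ.filter fun x : K false (ok m) => R x.1.1 x.1.2).card := by
  obtain ⟨π, -, h2, h3, h4⟩ := hA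
  have hinv : ∀ a, π (π a) = a := fun a => h2 a (mem_univ a)
  have hne : ∀ a, π a ≠ a := fun a => h4 rfl a (mem_univ a)
  set S : Finset (Fin m) := univ.filter fun a => a < π a with hS
  set S' : Finset (Fin m) := univ.filter fun a => ¬ a < π a with hS'
  have hmap : ∀ a ∈ S, π a ∈ S' := by
    intro a ha
    rw [hS, mem_filter] at ha
    rw [hS', mem_filter, hinv]
    exact ⟨mem_univ _, not_lt_of_gt ha.2⟩
  have hmap' : ∀ a ∈ S', π a ∈ S := by
    intro a ha
    rw [hS', mem_filter] at ha
    rw [hS, mem_filter, hinv]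
    exact ⟨mem_univ _, lt_of_le_of_ne (not_lt.1 ha.2) (hne a)⟩
  have h6 : S.card = S'.card :=
    Finset.card_nbij' π π hmap hmap' (fun a _ => hinv a) (fun a _ => hinv a)
  have h7 : S.card + S'.card = m := by
    have := Finset.card_filter_add_card_filter_not (s := (univ : Finset (Fin m)))
      (fun a => a < π a)
    rw [Finset.card_univ, Fintype.card_fin] at this
    exact this
  have h8 : S.card = h + 1 := by omega
  rw [← h8]
  refine Finset.card_le_card_of_injOn
    (fun a => if hp : Pos false (ok m) (a, π a) then ⟨(a, π a), hp⟩ else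
      ⟨(⟨0, by omega⟩, ⟨1, by omega⟩), Or.inl (by simp), trivial⟩) ?_ ?_
  · intro a ha
    have ha' := (mem_filter.1 (Finset.mem_coe.1 ha)).2
    have hp : Pos false (ok m) (a, π a) := ⟨Or.inl ha', trivial⟩
    simp only [dif_pos hp]
    exact Finset.mem_coe.2 (mem_filter.2 ⟨mem_univ _, h3 a (mem_univ a)⟩)
  · intro a ha b hb hab
    have ha' := (mem_filter.1 (Finset.mem_coe.1 ha)).2
    have hb' := (mem_filter.1 (Finset.mem_coe.1 hb)).2
    have hp : Pos false (ok m) (a, π a) := ⟨Or.inl ha', trivial⟩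
    have hq : Pos false (ok m) (b, π b) := ⟨Or.inl hb', trivial⟩
    simp only [dif_pos hp, dif_pos hq] at hab
    have h9 := congrArg (fun z : K false (ok m) => z.1.1) hab
    exact h9

open Classical in
/-- the degree of a vertex of the class of `x` is at most the number of the coordinates of `x` -/
theorem deg_le {Lx : Fin m → Prop} {j0 : Fin m} (hR : ∀ a b, R a b → R b a)
    (hL : ∀ i l, R i j0 → R i l → Lx l) (hA : Adm false R univ) :
    (univ.filter fun x : K false (ok m) =>
      R x.1.1 x.1.2 ∧ (x.1.1 = j0 ∨ x.1.2 = j0)).card ≤ (univ.filter fun j => Lx j).card := by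
  obtain ⟨π, -, h2, h3, h4⟩ := hA
  have hinv : ∀ a, π (π a) = a := fun a => h2 a (mem_univ a)
  have hlt : ∀ x : K false (ok m), x.1.1 < x.1.2 := by
    intro x
    rcases x.2.1 with h | h
    · exact h
    · exact absurd h.1 (by simp)
  refine Finset.card_le_card_of_injOn
    (fun x => π (if x.1.1 = j0 then x.1.2 else x.1.1)) ?_ ?_
  · intro x hx
    obtain ⟨hx1, hx2⟩ := (mem_filter.1 (Finset.mem_coe.1 hx)).2
    refine Finset.mem_coe.2 (mem_filter.2 ⟨mem_univ _, ?_⟩)
    refine hL (if x.1.1 = j0 then x.1.2 else x.1.1) _ ?_ (h3 _ (mem_univ _))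
    split_ifs with h
    · rw [← h]; exact hR _ _ hx1
    · rcases hx2 with h' | h'
      · exact absurd h' h
      · rw [← h']; exact hx1
  · intro x hx y hy hxy
    obtain ⟨hx1, hx2⟩ := (mem_filter.1 (Finset.mem_coe.1 hx)).2
    obtain ⟨hy1, hy2⟩ := (mem_filter.1 (Finset.mem_coe.1 hy)).2
    have h5 : (if x.1.1 = j0 then x.1.2 else x.1.1) = (if y.1.1 = j0 then y.1.2 else y.1.1) := by
      have := congrArg π hxy
      simpa [hinv] using this
    have hx3 := hlt x
    have hy3 := hlt y
    apply Subtype.ext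
    apply Prod.ext
    · split_ifs at h5 with h6 h7 h7
      · rw [h6, h7]
      · exfalso
        have h8 : y.1.2 = j0 := hy2.resolve_left h7
        rw [h6] at hx3
        rw [h8] at hy3
        rw [h5] at hx3
        exact absurd hx3 (not_lt_of_gt hy3)
      · exfalso
        have h8 : x.1.2 = j0 := hx2.resolve_left h6
        rw [h7] at hy3
        rw [h8] at hx3
        rw [← h5] at hy3
        exact absurd hx3 (not_lt_of_gt hy3)
      · exact h5
    · split_ifs at h5 with h6 h7 h7
      · exact h5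
      · exfalso
        have h8 : y.1.2 = j0 := hy2.resolve_left h7
        rw [h6] at hx3
        rw [h8] at hy3
        rw [h5] at hx3
        exact absurd hx3 (not_lt_of_gt hy3)
      · exfalso
        have h8 : x.1.2 = j0 := hx2.resolve_left h6
        rw [h7] at hy3
        rw [h8] at hx3
        rw [← h5] at hy3
        exact absurd hx3 (not_lt_of_gt hy3)
      · rw [hx2.resolve_left h6, hy2.resolve_left h7]

end count

section
variable {k : Type} [Field k] {G : Type} [Group G] {N : ℕ} {w : Fin N → ℕ} {α : Fin N → G →* kˣ}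

open Classical in
/-- the pattern -/
theorem pat [CharZero k] {h : ℕ} (hh : 1 ≤ h) (R : Fin (2 * h + 2) → Fin (2 * h + 2) → Prop)
    (hR : ∀ a b, R a b → R b a) (hR3 : ∀ a b c d, R a b → R b c → R c d → R a d)
    (Lx : Fin (2 * h + 2) → Prop)
    (hc : ∀ a l j, R a l → Lx l → Lx j → R a j) (hL : ∀ i l j, R i j → Lx j → R i l → Lx l)
    (live : Co (2 * h + 2) → Prop)
    (hl1 : ∀ x : K false (ok (2 * h + 2)), live (Sum.inl x) ↔ R x.1.1 x.1.2)
    (hl2 : ∀ j, live (Sum.inr j) ↔ Lx j) (A : Finset (Co (2 * h + 2)))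
    (hA : ∀ x, x ∈ A ↔ live x) :
    ∃ Pt : Finset (Co (2 * h + 2)), Pool.Agent.R837.FQ.Ext k (huEq k (2 * h + 2)) live Pt ∧
      Pt.card ≤ A.card ∧ (h + 1) * (A.card - Pt.card) ≤
        ∑ x ∈ A, Sum.elim (fun _ => 1) (fun _ => h) x := by
  set A1 : Finset (K false (ok (2 * h + 2))) := univ.filter fun x => R x.1.1 x.1.2 with hA1
  set A2 : Finset (Fin (2 * h + 2)) := univ.filter fun j => Lx j with hA2
  have hAd : A = A1.disjSum A2 := by
    ext x
    rw [hA]
    rcases x with x | j
    · rw [hl1, Finset.inl_mem_disjSum, hA1, mem_filter]; simp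
    · rw [hl2, Finset.inr_mem_disjSum, hA2, mem_filter]; simp
  have hAc : A.card = A1.card + A2.card := by rw [hAd, Finset.card_disjSum]
  have hsum : ∑ x ∈ A, Sum.elim (fun _ => 1) (fun _ => h) x = A1.card + A2.card * h := by
    rw [hAd, Finset.sum_disjSum]
    simp
  rw [hsum, hAc]
  -- the chart `x = 0`
  obtain ⟨B, hB1, hB2, hB3⟩ := comb_alt' (V := Fin (2 * h + 2)) (sym := false) (R := R) hR rfl h h
    (Or.inr (by rw [Fintype.card_fin])) le_rfl
  set T1 : Finset (K false (ok (2 * h + 2))) := univ.filter fun x =>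
    R x.1.1 x.1.2 ∧ (x.1.1 ∈ B ∨ x.1.2 ∈ B) with hT1
  rw [card_K R, card_tch R B] at hB3
  rw [show (univ.filter fun x : K false (ok (2 * h + 2)) => R x.1.1 x.1.2) = A1 from rfl,
    show (univ.filter fun x : K false (ok (2 * h + 2)) =>
      R x.1.1 x.1.2 ∧ (x.1.1 ∈ B ∨ x.1.2 ∈ B)) = T1 from rfl] at hB3
  have hTA : T1.card ≤ A1.card := Finset.card_le_card (by
    intro x hx
    rw [hT1, mem_filter] at hx
    rw [hA1, mem_filter]
    exact ⟨mem_univ _, hx.2.1⟩)
  have hchart : Pool.Agent.R837.FQ.Ext k (huEq k (2 * h + 2)) live (T1.disjSum ∅) :=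
    ext_0 k h R hR hR3 B hB1 (by omega) live hl1 _ (fun x => by
      rw [Finset.inl_mem_disjSum, hT1, mem_filter]; simp) (fun j => by simp)
  have hTc : (T1.disjSum (∅ : Finset (Fin (2 * h + 2)))).card = T1.card := by
    rw [Finset.card_disjSum]; simp
  have huntouched : A1.card = T1.card ∨ (Adm false R univ ∧ A1.card ≤ T1.card + 1) := by
    rcases hB3 with h1 | ⟨h1, _, h3⟩
    · left
      exact le_antisymm (Nat.le_of_mul_le_mul_left h1 (by omega)) hTA
    · right
      refine ⟨h1, ?_⟩
      have := Nat.le_of_mul_le_mul_left h3 (by omega)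
      omega
  by_cases hp : A2.card = 0
  · refine ⟨_, hchart, ?_, ?_⟩
    · rw [hTc]; omega
    · rw [hTc, hp]
      rcases huntouched with h1 | ⟨h1, h2⟩
      · rw [h1]; simp
      · have h3 := card_adm R (h := h) rfl h1
        rw [show (univ.filter fun x : K false (ok (2 * h + 2)) => R x.1.1 x.1.2) = A1 from rfl]
          at h3
        have h4 : A1.card + 0 - T1.card ≤ 1 := by omega
        calc (h + 1) * (A1.card + 0 - T1.card) ≤ (h + 1) * 1 := Nat.mul_le_mul_left _ h4
          _ ≤ A1.card + 0 * h := by omega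
  · obtain ⟨j0, hj0⟩ := Finset.card_pos.1 (Nat.pos_of_ne_zero hp)
    have hj0' : Lx j0 := (mem_filter.1 hj0).2
    set D : Finset (K false (ok (2 * h + 2))) := univ.filter fun x =>
      R x.1.1 x.1.2 ∧ (x.1.1 = j0 ∨ x.1.2 = j0) with hD
    have hDA : D ⊆ A1 := by
      intro x hx
      rw [hD, mem_filter] at hx
      rw [hA1, mem_filter]
      exact ⟨mem_univ _, hx.2.1⟩
    have hDc := Finset.card_le_card hDA
    by_cases hg : D.card ≤ A2.card
    · refine ⟨(A1 \ D).disjSum A2, ?_, ?_, ?_⟩
      · refine ext_x k R hR Lx j0 hj0' (fun a l h1 h2 => hc a l j0 h1 h2 hj0') live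
          (fun x hx => (hl1 x).2 hx) (fun j hj => (hl2 j).2 hj) _ ?_ ?_
        · intro x hx
          rw [Finset.inl_mem_disjSum, mem_sdiff, hA1, hD, mem_filter, mem_filter] at hx
          refine ⟨hx.1.2, fun h1 => hx.2 ⟨mem_univ _, hx.1.2, Or.inl h1⟩,
            fun h1 => hx.2 ⟨mem_univ _, hx.1.2, Or.inr h1⟩⟩
        · intro j
          rw [Finset.inr_mem_disjSum, hA2, mem_filter]
          simp
      · rw [Finset.card_disjSum]
        have := Finset.card_le_card (Finset.sdiff_subset (s := A1) (t := D))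
        omega
      · rw [Finset.card_disjSum, Finset.card_sdiff_of_subset hDA]
        have h1 : A1.card + A2.card - (A1.card - D.card + A2.card) = D.card := by omega
        rw [h1]
        calc (h + 1) * D.card = D.card + D.card * h := by ring
          _ ≤ A1.card + A2.card * h := Nat.add_le_add hDc (Nat.mul_le_mul_right _ hg)
    · refine ⟨_, hchart, ?_, ?_⟩
      · rw [hTc]; omega
      · rw [hTc]
        rcases huntouched with h1 | ⟨h1, _⟩
        · have h2 : A1.card + A2.card - T1.card = A2.card := by omega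
          rw [h2]
          calc (h + 1) * A2.card = A2.card + A2.card * h := by ring
            _ ≤ A1.card + A2.card * h := by omega
        · exfalso
          apply hg
          exact deg_le R hR (fun i l h2 h3 => hL i l j0 h2 hj0' h3) h1

open Classical in
/-- the block -/
theorem exists_bd_hu [CharZero k] {h : ℕ} (hh : 1 ≤ h)
    (M : Matrix (Fin (2 * h + 2)) (Fin (2 * h + 2)) (MvPolynomial (Fin N) k))
    (hM : ∀ a b, M b a = - M a b) (hMd : ∀ a, M a a = 0)
    (x : Fin (2 * h + 2) → MvPolynomial (Fin N) k)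
    (e : Fin (2 * h + 2) → ℤ) (t f : ℤ) (ψ : Fin (2 * h + 2) → G →* kˣ) (ω φ : G →* kˣ)
    (hposA : ∀ a b, a < b → 0 < e a + e b + t) (hposx : ∀ j, 0 < f - e j)
    (hhomA : ∀ a b, a < b → ∀ d : ℕ, (d : ℤ) = e a + e b + t → IsWeightedHomogeneous w (M a b) d)
    (hhomx : ∀ j, ∀ d : ℕ, (d : ℤ) = f - e j → IsWeightedHomogeneous w (x j) d)
    (hsemiA : ∀ a b, a < b → ∀ g : G, act (fun i => (α i g : k)) (M a b) =
      C ((ψ a g * ψ b g * ω g : kˣ) : k) * M a b)
    (hsemix : ∀ j, ∀ g : G, act (fun i => (α i g : k)) (x j) =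
      C ((φ g * (ψ j g)⁻¹ : kˣ) : k) * x j) :
    Nonempty (Pool.Agent.R837.FQ.BD k G N w α
      (2 * (∑ a, e a + (2 * (h : ℤ) + 1) * t + 2 * (h : ℤ) * f))
      (fun p => (∀ i, ∑ j, eval p (M i j) * eval p (x j) = 0) ∧ (M.map (eval p)).det = 0)) := by
  have hlt : ∀ y : K false (ok (2 * h + 2)), y.1.1 < y.1.2 := by
    intro y
    rcases y.2.1 with h | h
    · exact h
    · exact absurd h.1 (by simp)
  have hnA : ∀ y : K false (ok (2 * h + 2)),
      ((e y.1.1 + e y.1.2 + t).toNat : ℤ) = e y.1.1 + e y.1.2 + t :=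
    fun y => Int.toNat_of_nonneg (hposA _ _ (hlt y)).le
  have hnx : ∀ j, ((f - e j).toNat : ℤ) = f - e j := fun j => Int.toNat_of_nonneg (hposx j).le
  set dg : Co (2 * h + 2) → ℕ :=
    Sum.elim (fun y => (e y.1.1 + e y.1.2 + t).toNat) (fun j => (f - e j).toNat) with hdg
  set χ : Co (2 * h + 2) → G →* kˣ :=
    Sum.elim (fun y => ψ y.1.1 * ψ y.1.2 * ω) (fun j => φ * (ψ j)⁻¹) with hχ
  have hpos : ∀ c, 0 < dg c := by
    rintro (y | j)
    · have := hposA _ _ (hlt y)
      simp only [hdg, Sum.elim_inl]; omega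
    · have := hposx j
      simp only [hdg, Sum.elim_inr]; omega
  have hentry : ∀ i j, mat false (ok (2 * h + 2))
      (fun x => (X (Sum.inl x) : MvPolynomial (Co (2 * h + 2)) k)) i j = 0 ∨
      ∃ m : ℕ, (m : ℤ) = e i + (e j + t) ∧ IsWeightedHomogeneous dg
        (mat false (ok (2 * h + 2))
          (fun x => (X (Sum.inl x) : MvPolynomial (Co (2 * h + 2)) k)) i j) m := by
    intro i j
    simp only [mat]
    split_ifs with h1 h2
    · right
      refine ⟨_, ?_, isWeightedHomogeneous_X k _ _⟩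
      have h5 := hnA ⟨(i, j), h1⟩
      simp only [hdg, Sum.elim_inl] at h5 ⊢
      rw [h5]
      ring
    · right
      refine ⟨dg (Sum.inl ⟨_, h2⟩), ?_, ?_⟩
      · have h5 := hnA ⟨(j, i), h2⟩
        simp only [hdg, Sum.elim_inl] at h5 ⊢
        rw [h5]
        ring
      · have h3 := isWeightedHomogeneous_X k dg (Sum.inl ⟨_, h2⟩)
        have e1 : sg (MvPolynomial (Co (2 * h + 2)) k) false = -1 := by simp [sg]
        rw [e1, neg_one_mul]
        exact h3.neg
    · left; rfl
  refine ⟨{
    K := Co (2 * h + 2)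
    ftK := inferInstance
    J := Fin (2 * h + 2) ⊕ Unit
    g := huEq k (2 * h + 2)
    M := Sum.elim (fun y => M y.1.1 y.1.2) x
    dg := dg
    dg_pos := hpos
    hom := ?_
    hg := ?_
    χ := χ
    semi := ?_
    rank := ?_
    P := Co (2 * h + 2)
    ftP := inferInstance
    c := Sum.elim (fun _ => 1) (fun _ => h)
    d := dg
    hd := hpos
    X := χ
    q := h + 1
    hq := by omega
    htop := ?_
    pat := ?_ }⟩
  · rintro (y | j)
    · exact hhomA _ _ (hlt y) _ (hnA y)
    · exact hhomx j _ (hnx j)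
  · rintro (i | _)
    · refine ⟨(e i + t + f).toNat, ?_⟩
      unfold huEq
      refine IsWeightedHomogeneous.sum _ _ _ fun j _ => ?_
      rcases hentry i j with h1 | ⟨m, h1, h2⟩
      · rw [h1, zero_mul]
        exact isWeightedHomogeneous_zero _ _ _
      · have h3 := h2.mul (isWeightedHomogeneous_X k dg (Sum.inr j))
        have h4 : m + dg (Sum.inr j) = (e i + t + f).toNat := by
          have h5 := hnx j
          simp only [hdg, Sum.elim_inr]
          omega
        rw [h4] at h3
        exact h3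
    · unfold huEq
      exact det_hom dg _ (fun i => e i) (fun j => e j + t) hentry
  · rintro γ (y | j)
    · exact hsemiA _ _ (hlt y) γ
    · exact hsemix j γ
  · intro p hp
    have hmat : mat false (ok (2 * h + 2)) (fun y => eval p (M y.1.1 y.1.2)) =
        M.map (eval p) := by
      refine mat_of false (ok (2 * h + 2)) (fun _ _ _ => trivial) (M.map (eval p)) ?_ ?_
        (fun a b hab => absurd trivial hab)
      · intro a b
        simp only [Matrix.map_apply]
        rw [hM a b, map_neg]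
        simp [sg]
      · intro _ a
        simp only [Matrix.map_apply, hMd a, map_zero]
    have h2 := mat_map false (ok (2 * h + 2))
      (fun κ => (X (Sum.inl κ) : MvPolynomial (Co (2 * h + 2)) k))
      (eval (fun c => eval p (Sum.elim (fun y : K false (ok (2 * h + 2)) => M y.1.1 y.1.2) x c)))
    simp only [eval_X, Sum.elim_inl] at h2
    rw [hmat] at h2
    refine ⟨fun i => ?_, ?_⟩
    · have h3 := hp (Sum.inl i)
      simp only [huEq, map_sum, map_mul, eval_X, Sum.elim_inr] at h3
      rw [← h3]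
      refine Finset.sum_congr rfl fun j _ => ?_
      congr 1
      have h4 := congrFun (congrFun h2 i) j
      simp only [Matrix.map_apply] at h4
      exact h4.symm
    · have h3 := hp (Sum.inr ())
      simp only [huEq] at h3
      rw [RingHom.map_det] at h3
      rw [← h3, ← h2]
      rfl
  · have h1 := two_sum_false (ok (2 * h + 2)) (fun _ _ _ => trivial)
      (fun a b => e a + e b + t) (fun a b => by ring)
    have h2 : 2 * ∑ y : K false (ok (2 * h + 2)), (e y.1.1 + e y.1.2 + t) =
        (((2 * h + 2 : ℕ) : ℤ) - 1) * (2 * ∑ a, e a + ((2 * h + 2 : ℕ) : ℤ) * t) := by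
      rw [← sum_alt]
      convert h1
    have h3 : ∑ c : Co (2 * h + 2), ((Sum.elim (fun _ => 1) (fun _ => h) c : ℕ) : ℤ) *
        (dg c : ℤ) = ∑ y : K false (ok (2 * h + 2)), (e y.1.1 + e y.1.2 + t) +
          h * ∑ j, (f - e j) := by
      rw [Fintype.sum_sum_type]
      congr 1
      · refine Finset.sum_congr rfl fun y _ => ?_
        simp only [hdg, Sum.elim_inl]
        rw [hnA]
        simp
      · rw [Finset.mul_sum]
        refine Finset.sum_congr rfl fun j _ => ?_
        simp only [hdg, Sum.elim_inr]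
        rw [hnx]
    rw [h3]
    simp only [Finset.sum_sub_distrib, Finset.sum_const, Finset.card_univ, Fintype.card_fin,
      nsmul_eq_mul]
    push_cast at h2 ⊢
    linear_combination -h2
  · intro γ μ
    set y : Fin (2 * h + 2) → kˣ := fun a => rc μ (ψ a γ) (e a) with hy
    set Φ : kˣ := rc μ (φ γ) f with hΦ
    set R : Fin (2 * h + 2) → Fin (2 * h + 2) → Prop := Rel (ok (2 * h + 2)) y (rc μ (ω γ) t)
      with hRdef
    have hR : ∀ a b, R a b → R b a := fun a b h => Rel.symm (fun _ _ _ => trivial) h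
    have hR3 : ∀ a b c d, R a b → R b c → R c d → R a d := fun a b c d h1 h2 h3 =>
      Rel.three (fun _ _ _ _ _ _ _ => trivial) h1 h2 h3
    have hrc : ∀ j, rc μ ((φ * (ψ j)⁻¹) γ) (f - e j) = Φ * (y j)⁻¹ := by
      intro j
      simp only [hΦ, hy, rc, MonoidHom.mul_apply, MonoidHom.inv_apply]
      rw [zpow_sub, mul_inv, mul_inv, inv_inv]
      exact mul_mul_mul_comm _ _ _ _
    obtain ⟨Pt, h1, h2⟩ : ∃ Pt : Finset (Co (2 * h + 2)),
        Pool.Agent.R837.FQ.Ext k (huEq k (2 * h + 2)) (fun c => χ c γ = μ ^ dg c) Pt ∧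
        Pt.card ≤ (univ.filter fun c => χ c γ = μ ^ dg c).card ∧
        (h + 1) * ((univ.filter fun c => χ c γ = μ ^ dg c).card - Pt.card) ≤
        ∑ c ∈ univ.filter (fun c => χ c γ = μ ^ dg c), Sum.elim (fun _ => 1) (fun _ => h) c := by
      refine pat (k := k) hh R hR hR3 (fun j => y j = Φ) ?_ ?_ _ ?_ ?_ _ (fun c => by simp)
      · intro a l j h1 h2 h3
        refine ⟨trivial, ?_⟩
        have h4 := h1.2
        rw [h2] at h4
        rw [h3]
        exact h4
      · intro i l j h1 h2 h3
        have h4 := h1.2.trans h3.2.symm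
        have h5 := mul_right_cancel h4
        have h6 := mul_left_cancel h5
        rw [← h6]
        exact h2
      · intro c
        simp only [hχ, hdg, Sum.elim_inl]
        rw [← rc_eq_one μ _ _ _ (hnA c)]
        have h3 : rc μ ((ψ c.1.1 * ψ c.1.2 * ω) γ) (e c.1.1 + e c.1.2 + t) =
            y c.1.1 * y c.1.2 * rc μ (ω γ) t := by
          simp only [hy]
          rw [rc_mul_rc, rc_mul_rc]
          rfl
        rw [h3]
        exact ⟨fun h => ⟨trivial, h⟩, fun h => h.2⟩
      · intro j
        simp only [hχ, hdg, Sum.elim_inr]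
        rw [← rc_eq_one μ _ _ _ (hnx j), hrc j, mul_inv_eq_one]
        exact eq_comm
    refine ⟨Pt, h1, ?_⟩
    intro A hA E hE
    have e1 : A = univ.filter fun c => χ c γ = μ ^ dg c := by
      ext c; rw [hA c]; simp
    have e2 : E = univ.filter fun c => χ c γ = μ ^ dg c := by
      ext c; rw [hE c]; simp
    rw [e1, e2]
    exact h2

end

end Pool.Agent.U913.HU
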