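import Pool.Agent.N830.PS.Blocks

/-!
# The format `A x = 0`, `Pf A = 0`: free coordinates and counting
-/

set_option autoImplicit false
set_option linter.unusedSectionVars false

namespace Pool.Agent.U913.HU

open Finset MvPolynomial Pool.Agent.R837.FE Pool.Agent.N830.PS
open Pool.Agent.TH144.NV (act)

variable {m : ℕ}

/-- every pair of indices is allowed -/
abbrev ok (m : ℕ) : Fin m → Fin m → Prop := fun _ _ => True

/-- the coordinates: the entries above the diagonal of `A`, and the entries of `x` -/
abbrev Co (m : ℕ) : Type := K false (ok m) ⊕ Fin m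

/-- the equations -/
noncomputable def huEq (k : Type) [Field k] (m : ℕ) : Fin m ⊕ Unit → MvPolynomial (Co m) k
  | Sum.inl i => ∑ j, mat false (ok m) (fun x => (X (Sum.inl x) : MvPolynomial (Co m) k)) i j *
      X (Sum.inr j)
  | Sum.inr _ => (mat false (ok m) (fun x => (X (Sum.inl x) : MvPolynomial (Co m) k))).det

theorem aeval_mat {k : Type} [Field k] {L : Type} [Field L] [Algebra k L] (z : Co m → L) :
    (mat false (ok m) (fun x => (X (Sum.inl x) : MvPolynomial (Co m) k))).map (aeval z) =
      mat false (ok m) (fun x => z (Sum.inl x)) := by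
  have h2 := mat_map false (ok m) (fun κ => (X (Sum.inl κ) : MvPolynomial (Co m) k))
    (aeval z : MvPolynomial (Co m) k →ₐ[k] L).toRingHom
  have h3 : (fun κ => (aeval z : MvPolynomial (Co m) k →ₐ[k] L).toRingHom
      (X (Sum.inl κ) : MvPolynomial (Co m) k)) = fun x => z (Sum.inl x) := by
    funext κ
    exact aeval_X _ _
  rw [h3] at h2
  exact h2

theorem aeval_huEq {k : Type} [Field k] {L : Type} [Field L] [Algebra k L] (z : Co m → L)
    (A : Matrix (Fin m) (Fin m) L) (hA : mat false (ok m) (fun x => z (Sum.inl x)) = A)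
    (h1 : ∀ i, ∑ j, A i j * z (Sum.inr j) = 0) (h2 : A.det = 0) (j : Fin m ⊕ Unit) :
    aeval z (huEq k m j) = 0 := by
  have hm := aeval_mat (k := k) z
  rw [hA] at hm
  rcases j with i | _
  · simp only [huEq, map_sum, map_mul, aeval_X]
    rw [← h1 i]
    refine Finset.sum_congr rfl fun j _ => ?_
    rw [← hm]
    rfl
  · simp only [huEq]
    rw [AlgHom.map_det, ← h2, ← hm]
    rfl

/-- the chart in which a coordinate of `x` does not vanish -/
theorem ext_x (k : Type) [Field k] [CharZero k] (R : Fin m → Fin m → Prop)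
    (hR : ∀ a b, R a b → R b a) (Lx : Fin m → Prop) (j0 : Fin m) (hj0 : Lx j0)
    (hc : ∀ a l, R a l → Lx l → R a j0) (live : Co m → Prop)
    (hl1 : ∀ x : K false (ok m), R x.1.1 x.1.2 → live (Sum.inl x))
    (hl2 : ∀ j, Lx j → live (Sum.inr j)) (Pt : Finset (Co m))
    (hP1 : ∀ x : K false (ok m), Sum.inl x ∈ Pt → R x.1.1 x.1.2 ∧ x.1.1 ≠ j0 ∧ x.1.2 ≠ j0)
    (hP2 : ∀ j, Sum.inr j ∈ Pt ↔ Lx j) :
    Pool.Agent.R837.FQ.Ext k (huEq k m) live Pt := by
  classical
  intro L _ _ u hu
  have : CharZero L := charZero_of_injective_algebraMap (algebraMap k L).injective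
  have hj0P : Sum.inr j0 ∈ Pt := (hP2 j0).2 hj0
  let xv : Fin m → L := fun j => if Lx j then u (Sum.inr j) else 0
  have hx0 : xv j0 ≠ 0 := by
    have h1 : u (Sum.inr j0) ≠ 0 := hu.ne_zero ⟨Sum.inr j0, hj0P⟩
    simpa [xv, hj0] using h1
  let zB : K false (ok m) → L := fun x => if Sum.inl x ∈ Pt then u (Sum.inl x) else 0
  set B : Matrix (Fin m) (Fin m) L := mat false (ok m) zB with hB
  have hBanti : ∀ a b, B b a = - B a b := by
    intro a b
    have h1 := mat_symm false (ok m) zB a b
    simpa [sg, hB] using h1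
  have hBdiag : ∀ a, B a a = 0 := fun a => mat_diag (ok m) zB a
  have hBval : ∀ a b, B a b ≠ 0 → R a b ∧ a ≠ j0 ∧ b ≠ j0 := by
    intro a b h
    rcases lt_trichotomy a b with hab | hab | hab
    · have hp : Pos false (ok m) (a, b) := ⟨Or.inl hab, trivial⟩
      have h1 : B a b = zB ⟨(a, b), hp⟩ := by
        simp only [hB, mat]
        rw [dif_pos hp]
      rw [h1] at h
      by_cases hm : (Sum.inl ⟨(a, b), hp⟩ : Co m) ∈ Pt
      · exact hP1 ⟨(a, b), hp⟩ hm
      · simp only [zB, if_neg hm] at h
        exact absurd rfl h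
    · subst hab
      exact absurd (hBdiag a) h
    · have hp : Pos false (ok m) (b, a) := ⟨Or.inl hab, trivial⟩
      have h1 : B b a = zB ⟨(b, a), hp⟩ := by
        simp only [hB, mat]
        rw [dif_pos hp]
      have h2 : B b a ≠ 0 := by
        rw [hBanti a b]; exact neg_ne_zero.2 h
      rw [h1] at h2
      by_cases hm : (Sum.inl ⟨(b, a), hp⟩ : Co m) ∈ Pt
      · have h3 := hP1 ⟨(b, a), hp⟩ hm
        exact ⟨hR _ _ h3.1, h3.2.2, h3.2.1⟩
      · simp only [zB, if_neg hm] at h2
        exact absurd rfl h2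
  let c : Fin m → L := fun i => - (xv j0)⁻¹ * ∑ l, B i l * xv l
  have hc0 : c j0 = 0 := by
    have h1 : ∀ l, B j0 l * xv l = 0 := by
      intro l
      have : B j0 l = 0 := by
        by_contra h
        exact (hBval _ _ h).2.1 rfl
      rw [this, zero_mul]
    show - (xv j0)⁻¹ * ∑ l, B j0 l * xv l = 0
    rw [Finset.sum_eq_zero fun l _ => h1 l, mul_zero]
  have hcR : ∀ a, c a ≠ 0 → R a j0 := by
    intro a h
    by_contra hcon
    apply h
    have h1 : ∀ l, B a l * xv l = 0 := by
      intro l
      by_contra h2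
      have h3 := (hBval _ _ (left_ne_zero_of_mul h2)).1
      have h4 : Lx l := by
        by_contra h5
        apply right_ne_zero_of_mul h2
        simp [xv, h5]
      exact hcon (hc a l h3 h4)
    show - (xv j0)⁻¹ * ∑ l, B a l * xv l = 0
    rw [Finset.sum_eq_zero fun l _ => h1 l, mul_zero]
  let A : Matrix (Fin m) (Fin m) L := fun i j =>
    B i j + (if j = j0 then c i else 0) - (if i = j0 then c j else 0)
  have hAanti : ∀ a b, A b a = - A a b := by
    intro a b
    show B b a + _ - _ = - (B a b + _ - _)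
    rw [hBanti a b]
    ring
  have hAdiag : ∀ a, A a a = 0 := by
    intro a
    show B a a + _ - _ = 0
    rw [hBdiag]
    ring
  let z : Co m → L := Sum.elim (fun x => A x.1.1 x.1.2) xv
  have hmat : mat false (ok m) (fun x => z (Sum.inl x)) = A := by
    refine mat_of false (ok m) (fun _ _ _ => trivial) A ?_ (fun _ => hAdiag)
      (fun a b hab => absurd trivial hab)
    intro a b
    rw [hAanti a b]
    simp [sg]
  have hS : ∑ j, c j * xv j = 0 := by
    have h1 : ∑ j, ∑ l, B j l * xv l * xv j = 0 := by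
      have h2 : ∑ j, ∑ l, B j l * xv l * xv j = - ∑ j, ∑ l, B j l * xv l * xv j := by
        conv_lhs => rw [Finset.sum_comm]
        rw [← Finset.sum_neg_distrib]
        refine Finset.sum_congr rfl fun j _ => ?_
        rw [← Finset.sum_neg_distrib]
        refine Finset.sum_congr rfl fun l _ => ?_
        rw [hBanti j l]
        ring
      have h3 : (2 : L) * ∑ j, ∑ l, B j l * xv l * xv j = 0 := by linear_combination h2
      exact (mul_eq_zero.1 h3).resolve_left two_ne_zero
    have h4 : ∑ j, c j * xv j = - (xv j0)⁻¹ * ∑ j, ∑ l, B j l * xv l * xv j := by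
      rw [Finset.mul_sum]
      refine Finset.sum_congr rfl fun j _ => ?_
      show - (xv j0)⁻¹ * (∑ l, B j l * xv l) * xv j = _
      rw [mul_assoc, Finset.sum_mul]
    rw [h4, h1, mul_zero]
  have hker : ∀ i, ∑ j, A i j * xv j = 0 := by
    intro i
    have h1 : ∑ j, A i j * xv j = ∑ j, B i j * xv j + c i * xv j0 -
        (if i = j0 then ∑ j, c j * xv j else 0) := by
      have h2 : ∀ j, A i j * xv j = B i j * xv j + (if j = j0 then c i * xv j else 0) -
          (if i = j0 then c j * xv j else 0) := by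
        intro j
        show (B i j + (if j = j0 then c i else 0) - (if i = j0 then c j else 0)) * xv j = _
        split_ifs <;> ring
      rw [Finset.sum_congr rfl fun j _ => h2 j, Finset.sum_sub_distrib, Finset.sum_add_distrib,
        Finset.sum_ite_eq' univ j0, if_pos (mem_univ j0)]
      congr 1
      split_ifs
      · rfl
      · simp
    rw [h1, hS]
    have h3 : c i * xv j0 = - ∑ l, B i l * xv l := by
      show - (xv j0)⁻¹ * (∑ l, B i l * xv l) * xv j0 = _
      field_simp
    rw [h3]
    simp
  have hdet : A.det = 0 := by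
    apply Matrix.exists_mulVec_eq_zero_iff.1
    refine ⟨xv, fun h => hx0 (congrFun h j0), ?_⟩
    funext i
    exact hker i
  refine ⟨z, ?_, ?_, ?_⟩
  · rintro (x | j) hx
    · have h1 := hP1 x hx
      show A x.1.1 x.1.2 = u (Sum.inl x)
      show B x.1.1 x.1.2 + _ - _ = _
      rw [if_neg h1.2.2, if_neg h1.2.1]
      have h2 : B x.1.1 x.1.2 = zB x := by
        have hp : Pos false (ok m) (x.1.1, x.1.2) := x.2
        simp only [hB, mat]
        rw [dif_pos hp]
      rw [h2]
      simp [zB, hx]
    · have h1 := (hP2 j).1 hx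
      show xv j = _
      simp [xv, h1]
  · rintro (x | j) hx
    · show A x.1.1 x.1.2 = 0
      have hnR : ¬ R x.1.1 x.1.2 := fun h => hx (hl1 x h)
      have h1 : B x.1.1 x.1.2 = 0 := by
        by_contra h
        exact hnR (hBval _ _ h).1
      show B x.1.1 x.1.2 + _ - _ = 0
      rw [h1]
      have h2 : (if x.1.2 = j0 then c x.1.1 else 0) = 0 := by
        split_ifs with h
        · by_contra h3
          exact hnR (h ▸ hcR _ h3)
        · rfl
      have h3 : (if x.1.1 = j0 then c x.1.2 else 0) = 0 := by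
        split_ifs with h
        · by_contra h3
          exact hnR (hR _ _ (h ▸ hcR _ h3))
        · rfl
      rw [h2, h3]
      ring
    · show xv j = 0
      have : ¬ Lx j := fun h => hx (hl2 j h)
      simp [xv, this]
  · intro j
    exact aeval_huEq z A hmat hker hdet j

end Pool.Agent.U913.HU
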